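import Pool.Agent.Lib.MP_f52c03_co.BL.Main3

/-! The Birkhoff–Lewis inequalities for a linear range of leading coefficients, for every cubic map.

The maps and the hypotheses on the permutations `σ`, `α` are word for word those of the frozen
statement of the problem; there is no further hypothesis. -/

set_option autoImplicit false

open Polynomial

namespace Pool.Agent.Results.MP_f52c03_co.LeadingCoefficients

/-- For every cubic map with `n + 3` regions, given as in the frozen statement, the chromatic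
polynomial is `X * (X - 1) * (X - 2) * Q`, and writing `Q = ∑ k, c k * z ^ (n - k)` with `z = X - 4`,
the Birkhoff–Lewis inequalities `n.choose k ≤ c k ≤ 2 ^ k * n.choose k` hold for every `k ≤ n / 25`. -/
theorem result (n : ℕ) (D : Type) [Fintype D] (σ α : Equiv.Perm D)
    (hα : ∀ d : D, α (α d) = d ∧ α d ≠ d)
    (hσ : ∀ d : D, σ (σ (σ d)) = d ∧ σ d ≠ d)
    (htr : ∀ d e : D, ∃ g ∈ Subgroup.closure ({σ, α} : Set (Equiv.Perm D)), g d = e)
    (hcard : Fintype.card D = 6 * (n + 1))
    (hreg : Nat.card (Quotient (MulAction.orbitRel (Subgroup.zpowers (σ * α)) D)) = n + 3)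
    (hb : ∀ d : D, ∀ j : ℤ, ((σ * α) ^ j) d ≠ α d) :
    ∃ Q : Polynomial ℚ,
      (∀ k : ℕ,
        ((Nat.card {c : D → Fin k // (∀ d, c ((σ * α) d) = c d) ∧ ∀ d, c d ≠ c (α d)} : ℕ) : ℚ)
          = (k : ℚ) * ((k : ℚ) - 1) * ((k : ℚ) - 2) * Q.eval (k : ℚ)) ∧
      ∀ k : ℕ, 25 * k ≤ n →
        (n.choose k : ℚ) ≤ (Q.comp (Polynomial.X + 4)).coeff (n - k) ∧
        (Q.comp (Polynomial.X + 4)).coeff (n - k) ≤ 2 ^ k * (n.choose k : ℚ) :=
  Pool.Agent.Lib.MP_f52c03_co.BL.main3 n D σ α hα hσ htr hcard hreg hb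

end Pool.Agent.Results.MP_f52c03_co.LeadingCoefficients
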