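import Pool.Agent.Lib.MP_f52c03_co.BL.Main1

/-! The Birkhoff–Lewis inequalities `(X - 3) ^ n ≪ R ≪ (X - 2) ^ n` (all coefficients in powers of
`X - 4`) for every cubic map whose region graph has no minor of minimum degree at least five.

The maps, the hypotheses on the permutations `σ`, `α` and the conclusion are those of the frozen
statement of the problem; the only further hypothesis is the one on the minors of the region graph. -/

set_option autoImplicit false

open Polynomial

namespace Pool.Agent.Results.MP_f52c03_co.LowDegreeMinors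

/-- The regions of the map `(σ, α)`: the orbits of `σ * α` on the darts. -/
abbrev Region {D : Type} (σ α : Equiv.Perm D) : Type :=
  Quotient (MulAction.orbitRel (Subgroup.zpowers (σ * α)) D)

/-- The region graph of the map `(σ, α)`: its vertices are the regions, and two different regions are
adjacent when they share an edge, that is, when some dart `d` lies on one of them and its reverse
`α d` lies on the other. -/
def regionGraph {D : Type} (σ α : Equiv.Perm D) : SimpleGraph (Region σ α) :=
  SimpleGraph.fromRel
    (fun x y => ∃ d : D, (Quotient.mk _ d : Region σ α) = x ∧ (Quotient.mk _ (α d) : Region σ α) = y)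

/-- `H` is a minor of `G`: there are pairwise disjoint sets of vertices of `G`, one set
`{v | f v = some w}` for every vertex `w` of `H`, each inducing a connected subgraph, such that
adjacent vertices of `H` have sets joined by an edge of `G` (the vertices with `f v = none` are
deleted). -/
def IsMinor {W V : Type} (H : SimpleGraph W) (G : SimpleGraph V) : Prop :=
  ∃ f : V → Option W, (∀ w : W, (G.induce {v | f v = some w}).Connected) ∧
    ∀ a b : W, H.Adj a b → ∃ u v : V, f u = some a ∧ f v = some b ∧ G.Adj u v

/-- For every cubic map with `n + 3` regions, given as in the frozen statement, such that every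
nonempty finite minor of its region graph has a vertex of degree at most four, the Birkhoff–Lewis
inequalities hold for all coefficients: the chromatic polynomial is `X * (X - 1) * (X - 2) * Q`, and
expanded in powers of `z = X - 4` every coefficient of `Q` lies between those of `(z + 1) ^ n` and
`(z + 2) ^ n`. -/
theorem result (n : ℕ) (D : Type) [Fintype D] (σ α : Equiv.Perm D)
    (hα : ∀ d : D, α (α d) = d ∧ α d ≠ d)
    (hσ : ∀ d : D, σ (σ (σ d)) = d ∧ σ d ≠ d)
    (htr : ∀ d e : D, ∃ g ∈ Subgroup.closure ({σ, α} : Set (Equiv.Perm D)), g d = e)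
    (hcard : Fintype.card D = 6 * (n + 1))
    (hreg : Nat.card (Quotient (MulAction.orbitRel (Subgroup.zpowers (σ * α)) D)) = n + 3)
    (hb : ∀ d : D, ∀ j : ℤ, ((σ * α) ^ j) d ≠ α d)
    (hminor : ∀ (W : Type) [Fintype W] [Nonempty W] (H : SimpleGraph W),
      IsMinor H (regionGraph σ α) → ∃ w : W, Nat.card (H.neighborSet w) ≤ 4) :
    ∃ Q : Polynomial ℚ,
      (∀ k : ℕ,
        ((Nat.card {c : D → Fin k // (∀ d, c ((σ * α) d) = c d) ∧ ∀ d, c d ≠ c (α d)} : ℕ) : ℚ)
          = (k : ℚ) * ((k : ℚ) - 1) * ((k : ℚ) - 2) * Q.eval (k : ℚ)) ∧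
      ∀ i : ℕ,
        ((Polynomial.X + 1 : Polynomial ℚ) ^ n).coeff i ≤ (Q.comp (Polynomial.X + 4)).coeff i ∧
        (Q.comp (Polynomial.X + 4)).coeff i ≤ ((Polynomial.X + 2 : Polynomial ℚ) ^ n).coeff i :=
  Pool.Agent.Lib.MP_f52c03_co.BL.main n D σ α hα hσ htr hcard hreg hb
    (fun W _ _ H hH => hminor W H hH)

end Pool.Agent.Results.MP_f52c03_co.LowDegreeMinors
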